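import Pool.Agent.Q269.SX.Avg
import Pool.Agent.Q269.SX.Grp
import Pool.Agent.Q269.SX.Asm

/-!
# The exact law of the orders of the 2-Selmer groups in families of twisted hyperelliptic Jacobians of every genus over `k(t)`

Let `k` be a finite field of characteristic different from 2 in which `-1` is a square, `K = k(t)`, and
let `R` be a finite set. For each `r` in `R` let `n r ≥ 3` be an odd number and let `a r 1, …, a r (n r)`
be polynomials over `k` whose differences have the same degree `N r ≥ 1` and a squarefree product `Δ r`;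
suppose that `Δ r` and `Δ r'` are coprime for `r ≠ r'`. For a monic squarefree polynomial `D` prime to
all the `Δ r` let `C(r, D)` be the curve of genus `(n r - 1) / 2`

`y ^ 2 = D(t) (x - a r 1) ⋯ (x - a r (n r))`

over `K`, the quadratic twist by `D` of `C(r, 1)`, and let `J(r, D)` be its Jacobian. All the curves are
twisted by the same polynomial `D`. The product of the `J(r, D)` is the Picard variety of the product
`X(D)` of the curves `C(r, D)`. The group `J(r, D)(L)`, `L` an extension of `K`, is the class group of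
the affine curve (there is one point at infinity and it is rational).

Let `S(r, D)` be the product of the orders of the groups `J(K) / (J(K)[2] + 2 J(K))` and `Ш'(J)[2]`, `J = J(r, D)`, where `Ш'(J)` is the
group of the classes in `H ^ 1 (K, J)` which are trivial over the completions of `K` at all the places different from infinity. If
`Q` is a prime divisor of `Δ r`, a divisor of exactly one difference `a r i - a r j`, the curve over the residue field of `Q` has one node;
it is called split if its tangents are rational, that is, if `D ∏_(l ≠ i, j) (a r i - a r l)` is a square modulo `Q`.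

Theorem. As the degree `m` of `D` tends to infinity, `m + N r` odd for all `r`, `k` fixed:

(1) For ALL `D` and `r` both groups are finite and `S(r, D) = 2 ^ (e r)` with an `e r` which is congruent modulo 2 to the number of the split
nodes; `e r = 0` if and only if `J(K) = J(K)[2] + 2 J(K)` and the 2-primary part of `Ш'(J)` is zero.

(2) For all sets `S r` of prime divisors of `Δ r` the set of the `D` for which the set of the split nodes of `C(r, D)` is `S r` for all `r` has
the density `2 ^ (- ∑_r |primes dividing Δ r|)` in the set of all the `D`.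

(3) In this class the vectors `(e r)_r` are distributed like a vector of independent random variables `X r` with the laws

`signedLaw |S r|`, where `signedLaw s e = 2 p(e)` for `e ≡ s` modulo 2 and `0` otherwise, `p(e) = (β / 2) 2 ^ e / ∏_(1 ≤ i ≤ e) (2 ^ i - 1)`,
`β = ∏_(i ≥ 0) (1 - 2 ^ (- 2 i - 1)) = 0.4194…`:

for EVERY set `𝒜` of vectors the proportion of the `D` in the class for which `(e r)_r` is in `𝒜` converges to the probability that `(X r)_r`
is in `𝒜`. In the set of all the `D` the `e r` are independent with the law `p`.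

The law depends neither on the genus nor on `k`. Up to now (`SelmerLawSeveralFamilies`) only the domination from above by this law was
known for the genus `> 1`: `S(r, D) ≤` the order of the kernel of a symmetric matrix of quadratic residue symbols. The new point is
equality: the local conditions for a class in `H ^ 1 (K, J[2])` are equivalent to the equations of the kernel, at the places of
good reduction, at the prime divisors of `D` and at the nodes. To prove this one needs many points over the completions `K_v`: their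
Mumford representations `(U, V)` are found with an irreducible polynomial over the residue field, which has prescribed quadratic
symbols at the branch points, so that the equation of the curve is solvable modulo it (reciprocity law over the residue field), and
Hensel's lemma.

(By the theorem of Tate, Milne, Kato and Trihan the conjecture of Birch and Swinnerton-Dyer holds for the `J(r, D)` with `e r = 0`, and
`rank J(K) +` (corank of the 2-primary part of `Ш`) `≤ e r`.)
-/

set_option autoImplicit false
set_option linter.all false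

namespace Pool.Agent.Results.MP_9faec4_nt.ExactLawSeveralFamilies

open Polynomial Filter IsDedekindDomain Pool.Agent.Y713.Jac
open scoped Classical

/-- The product of the differences `a i - a j`, `i < j`. -/
noncomputable def differences {k : Type} [Field k] {n : ℕ} (a : Fin n → k[X]) : k[X] :=
  ∏ x ∈ (Finset.univ : Finset (Fin n × Fin n)).filter (fun x => x.1 < x.2), (a x.1 - a x.2)

/-- The curve: `k` is a finite field of characteristic different from two in which `-1` is a square, `n ≥ 3` is odd, the
differences `a i - a j` have the same degree `N ≥ 1`, and their product over `i < j` is squarefree. -/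
structure Family {k : Type} [Field k] {n : ℕ} (a : Fin n → k[X]) (N : ℕ) : Prop where
  two : (2 : k) ≠ 0
  square : IsSquare (-1 : k)
  odd : Odd n
  three : 3 ≤ n
  pos : 1 ≤ N
  degree : ∀ i j, i ≠ j → (a i - a j).natDegree = N
  squarefree : Squarefree (differences a)

/-- The monic squarefree polynomials `D` of degree `m` prime to the differences `a r i - a r j` of all
the families. -/
def Twists {k : Type} [Field k] {R : Type} {n : R → ℕ} (a : (r : R) → Fin (n r) → k[X]) (m : ℕ) :
    Set k[X] :=
  {D | D.Monic ∧ D.natDegree = m ∧ Squarefree D ∧ ∀ r i j, i ≠ j → IsCoprime D (a r i - a r j)}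

/-- The polynomial `D(t) (x - a 1) ⋯ (x - a n)` in `x` over `K = k(t)`. -/
noncomputable def twist {k : Type} [Field k] (K : Type) [Field K] [Algebra k[X] K] {n : ℕ}
    (a : Fin n → k[X]) (D : k[X]) : K[X] :=
  C (algebraMap k[X] K D) * ∏ i, (X - C (algebraMap k[X] K (a i)))

/-- The subgroup `J(K)[2] + 2 J(K)` of `J(K)`, `J` the Jacobian of `y ^ 2 = F(x)` over `K`: the group generated by the kernel and the
image of the squaring (multiplicative notation). -/
noncomputable def torsionAndDoubles {K : Type} [Field K] (F : K[X]) : Subgroup (J 2 F K) :=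
  (powMonoidHom 2).ker ⊔ (powMonoidHom 2).range

/-- The cocycles with values in `J` which are trivial over the completions of `K = Frac R` at the primes of `R` and whose class is
killed by two. -/
def LocallyTrivialTwo {K : Type} [Field K] (F : K[X]) (R : Type) [CommRing R] [IsDedekindDomain R] [Algebra R K]
    [IsFractionRing R K] : Type :=
  {c : Cochain 2 F // IsCocycle 2 F c ∧ IsLocallyTrivial 2 F R c ∧ IsCoboundary 2 F (fun σ => c σ ^ 2)}

/-- The number of the classes in `H ^ 1 (K, J)` killed by two which are trivial over the completions of `K` at the primes of `R`. -/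
noncomputable def shaOrder {K : Type} [Field K] (F : K[X]) (R : Type) [CommRing R] [IsDedekindDomain R] [Algebra R K]
    [IsFractionRing R K] : ℕ :=
  Nat.card (Quot fun c c' : LocallyTrivialTwo F R => IsCoboundary 2 F (fun σ => c.1 σ / c'.1 σ))

/-- Both groups are finite and the product of their orders is `M`. -/
structure HasOrder {K : Type} [Field K] (F : K[X]) (R : Type) [CommRing R] [IsDedekindDomain R] [Algebra R K]
    [IsFractionRing R K] (M : ℕ) : Prop where
  order : (torsionAndDoubles F).index * shaOrder F R = M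
  points : (torsionAndDoubles F).index ≠ 0
  sha : shaOrder F R ≠ 0

/-- `J(K) = J(K)[2] + 2 J(K)`, and there is no class of order a power of two in `H ^ 1 (K, J)` which is trivial over the completions
of `K` at the primes of `R`. -/
def Good {K : Type} [Field K] (F : K[X]) (R : Type) [CommRing R] [IsDedekindDomain R] [Algebra R K]
    [IsFractionRing R K] : Prop :=
  (∀ x : J 2 F K, ∃ t y : J 2 F K, t ^ 2 = 1 ∧ x = t * y ^ 2) ∧ ShaPrimaryTrivial 2 F R

/-- The places at which the curve has a node: the monic prime divisors of the differences. -/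
def nodes {k : Type} [Field k] {n : ℕ} (a : Fin n → k[X]) : Set k[X] :=
  {Q | Q.Monic ∧ Irreducible Q ∧ Q ∣ differences a}

/-- The nodes with rational tangents of the curve twisted by `D`. -/
def splitNodes {k : Type} [Field k] {n : ℕ} (a : Fin n → k[X]) (D : k[X]) : Set k[X] :=
  {Q ∈ nodes a | ∃ i j : Fin n, i ≠ j ∧ Q ∣ a i - a j ∧
    ∃ h : k[X], Q ∣ h ^ 2 - D * ∏ l ∈ Finset.univ.filter (fun l => l ≠ i ∧ l ≠ j), (a i - a l)}

/-- The `D` for which the set of the split nodes of the `r`-th curve is `S r` for all `r`. -/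
def SplitClass {k : Type} [Field k] {R : Type} {n : R → ℕ} (a : (r : R) → Fin (n r) → k[X]) (S : R → Set k[X])
    (m : ℕ) : Set k[X] :=
  {D ∈ Twists a m | ∀ r, splitNodes (a r) D = S r}

/-- `m` goes to infinity with `m + N r` odd for all `r`. -/
def degrees {R : Type} (N : R → ℕ) : Filter ℕ := atTop ⊓ 𝓟 {m | ∀ r, Odd (m + N r)}

/-- The infinite product of the numbers `1 - 2 ^ (- 2 i - 1)`, `i ≥ 0`. -/
noncomputable def beta : ℝ := ∏' i : ℕ, (1 - (1 / 2 : ℝ) ^ (2 * i + 1))

/-- The probability of `e` in the law `p`. -/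
noncomputable def law (e : ℕ) : ℝ :=
  beta / 2 * (2 ^ e / ∏ i ∈ Finset.range e, ((2 : ℝ) ^ (i + 1) - 1))

/-- The law `2 p` on the numbers congruent to `s` modulo two. -/
noncomputable def signedLaw (s e : ℕ) : ℝ := if Even (e + s) then 2 * law e else 0

section proof

open Pool.Agent.Q269.SX Pool.Agent.Y164.HG
open Pool.Agent.Q269.SL (law2 lawc)

theorem law_eq : law2 = law := by
  funext e
  rw [Pool.Agent.Q269.SL.law2_eq]
  rfl

theorem signedLaw_eq (s : ℕ) : lawc (s : ZMod 2) = signedLaw s := by
  funext e
  rw [Pool.Agent.Q269.SL.lawc_eq, law_eq]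
  have h4 : ((e : ZMod 2) = (s : ZMod 2)) ↔ Even (e + s) := by
    rw [← ZMod.natCast_eq_zero_iff_even]
    push_cast
    have h5 : ∀ x y : ZMod 2, x = y ↔ x + y = 0 := by decide
    exact h5 _ _
  unfold signedLaw
  simp only [h4]

theorem tad_eq {K : Type} [Field K] (F : K[X]) : torsionAndDoubles F = tsub F := by
  ext x
  unfold torsionAndDoubles
  rw [Subgroup.mem_sup]
  constructor
  · rintro ⟨t, ht, z, ⟨y, rfl⟩, rfl⟩
    exact ⟨t, y, ht, rfl⟩
  · rintro ⟨t, y, ht, rfl⟩
    exact ⟨t, ht, y ^ 2, ⟨y, rfl⟩, rfl⟩

theorem order_of {K : Type} [Field K] {F : K[X]} {R : Type} [CommRing R] [IsDedekindDomain R] [Algebra R K]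
    [IsFractionRing R K] {M : ℕ} (g1 : (tsub F).index * nSh F R = M) (g2 : (tsub F).index ≠ 0) (g3 : nSh F R ≠ 0) :
    HasOrder F R M :=
  ⟨by rw [tad_eq]; exact g1, by rw [tad_eq]; exact g2, g3⟩

theorem geo {k : Type} [Field k] [Fintype k] {n : ℕ} {a : Fin n → k[X]} {N : ℕ} (h : Family a N) : Geo a N := by
  refine ⟨?_, h.square, h.odd, h.three, h.pos, h.degree, h.squarefree⟩
  intro h0
  apply h.two
  have := ringChar.Nat.cast_ringChar (R := k)
  rw [h0] at this
  exact_mod_cast this

variable {k : Type} [Field k] [Fintype k] {R : Type} [Fintype R] {n : R → ℕ} {a : ∀ r, Fin (n r) → k[X]}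
  {N : R → ℕ}

theorem mem_tw {m : ℕ} {D : k[X]} : D ∈ Twists a m ↔ D ∈ Pool.Agent.Q269.GR.Dn (∏ r, Del (a r)) m :=
  Pool.Agent.Q269.SX.mem_twm

theorem ncard_tw (m : ℕ) : ((Pool.Agent.Q269.GR.Dn (∏ r, Del (a r)) m).card) = (Twists a m).ncard :=
  (Pool.Agent.Q269.SX.card_twm m).symm

theorem ncard_fil (m : ℕ) (P Q : k[X] → Prop) (i : DecidablePred Q)
    (h : ∀ D, D ∈ Pool.Agent.Q269.GR.Dn (∏ r, Del (a r)) m → (Q D ↔ P D)) :
    (@Finset.filter _ Q i (Pool.Agent.Q269.GR.Dn (∏ r, Del (a r)) m)).card = {D ∈ Twists a m | P D}.ncard := by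
  rw [← Set.ncard_coe_finset]
  congr 1
  ext D
  rw [Finset.mem_coe, Finset.mem_filter]
  show _ ↔ D ∈ Twists a m ∧ P D
  rw [mem_tw]
  exact and_congr_right fun hD => h D hD

theorem mem_cls (H : ∀ r, Geo (a r) (N r)) {S : R → Set k[X]} (hS : ∀ r, S r ⊆ nodes (a r)) {m : ℕ} {D : k[X]} :
    D ∈ SplitClass a S m ↔ D ∈ clF H (fun r => sgT (a r) (S r)) m := by
  unfold clF
  rw [Finset.mem_filter]
  show D ∈ Twists a m ∧ _ ↔ _
  rw [mem_tw]
  refine and_congr_right fun hD => ?_
  refine forall_congr' fun r => ?_
  exact (cls_iff (H r) Pool.Agent.Q269.SX.Asm.d_KDR (mem_of hD r) (hS r)).symm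

theorem cls_coe (H : ∀ r, Geo (a r) (N r)) {S : R → Set k[X]} (hS : ∀ r, S r ⊆ nodes (a r)) (m : ℕ) :
    SplitClass a S m = ((clF H (fun r => sgT (a r) (S r)) m : Finset k[X]) : Set k[X]) := by
  ext D
  rw [Finset.mem_coe]
  exact mem_cls H hS

theorem pcl_eq (H : ∀ r, Geo (a r) (N r)) {S : R → Set k[X]} (hS : ∀ r, S r ⊆ nodes (a r)) (e : R → ℕ) :
    pcl a e (fun r => sgT (a r) (S r)) = ∏ r, signedLaw (S r).ncard (e r) := by
  unfold pcl
  refine Finset.prod_congr rfl fun r _ => ?_
  have h := sgT_sum (H r) (hS r)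
  rw [← signedLaw_eq]
  exact congrArg (fun c => lawc c (e r)) h

end proof

open Pool.Agent.Q269.SX Pool.Agent.Y164.HG in
/-- **Theorem.** -/
theorem result (k : Type) [Field k] [Finite k] (K : Type) [Field K] [Algebra k[X] K] [IsFractionRing k[X] K]
    (R : Type) [Fintype R] [Nonempty R] (n N : R → ℕ) (a : (r : R) → Fin (n r) → k[X]) (h : ∀ r, Family (a r) (N r))
    (hc : ∀ r r', r ≠ r' → IsCoprime (differences (a r)) (differences (a r'))) :
    HasSum law 1 ∧ (∀ s, HasSum (signedLaw s) 1) ∧
    (∃ c : ℝ, 0 < c ∧ ∀ᶠ m : ℕ in atTop, c * (Nat.card k : ℝ) ^ m ≤ ((Twists a m).ncard : ℝ)) ∧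
    ∃ e : k[X] → R → ℕ,
      (∀ m : ℕ, (∀ r, Odd (m + N r)) → ∀ D ∈ Twists a m, ∀ r,
        HasOrder (twist K (a r) D) k[X] (2 ^ e D r) ∧ Even (e D r + (splitNodes (a r) D).ncard) ∧
        (e D r = 0 ↔ Good (twist K (a r) D) k[X])) ∧
      (∀ S : R → Set k[X], (∀ r, S r ⊆ nodes (a r)) →
        Tendsto (fun m => ((SplitClass a S m).ncard : ℝ) / ((Twists a m).ncard : ℝ)) (degrees N)
          (nhds ((2 : ℝ) ^ (∑ r, (nodes (a r)).ncard))⁻¹) ∧
        ∀ 𝒜 : Set (R → ℕ),
          Tendsto (fun m => (({D ∈ SplitClass a S m | e D ∈ 𝒜}.ncard : ℕ) : ℝ) / ((SplitClass a S m).ncard : ℝ))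
            (degrees N) (nhds (∑' x : 𝒜, ∏ r, signedLaw (S r).ncard (x.1 r)))) ∧
      ∀ 𝒜 : Set (R → ℕ),
        Tendsto (fun m => (({D ∈ Twists a m | e D ∈ 𝒜}.ncard : ℕ) : ℝ) / ((Twists a m).ncard : ℝ))
          (degrees N) (nhds (∑' x : 𝒜, ∏ r, law (x.1 r))) := by
  let _ : Fintype k := Fintype.ofFinite k
  obtain ⟨r₀⟩ := (inferInstance : Nonempty R)
  have H : ∀ r, Geo (a r) (N r) := fun r => geo (h r)
  have hk : ringChar k ≠ 2 := (H r₀).hk
  have hm : IsSquare (-1 : k) := (H r₀).hm
  have hc' : ∀ r r', r ≠ r' → IsCoprime (Del (a r)) (Del (a r')) := hc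
  refine ⟨?_, ?_, ?_, fun D r => ex (H r) D, ?_, ?_, ?_⟩
  · rw [← law_eq]
    exact hasSum_law2
  · intro s
    rw [← signedLaw_eq]
    exact Pool.Agent.Q269.SL.hasSum_lawc _
  · obtain ⟨c, hc0, h1⟩ := lowD H hc' hk hm
    refine ⟨c, hc0, ?_⟩
    filter_upwards [h1] with m hm'
    rw [ncard_tw] at hm'
    rw [Nat.card_eq_fintype_card]
    exact hm'
  · intro m ho D hD r
    have hD' : D ∈ Pool.Agent.Q269.GR.Dn (Del (a r)) m := mem_of (mem_tw.1 hD) r
    have h4 := exact_kD (K := K) (H r) Asm.d_SEL Asm.d_BDX Asm.d_KDR m (ho r) D hD'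
    rw [(kD_pow (H r) Asm.d_KDR (ho r) hD').1] at h4
    obtain ⟨g1, g2, g3⟩ := Asm.d_CRD K _ k[X] _ h4 (by positivity)
    refine ⟨order_of g1 g2 g3, ?_, ?_⟩
    · have h5 := parity (H r) Asm.d_KDR (ho r) hD'
      have h6 : (splitNodes (a r) D).ncard = {Q ∈ BadN (a r) | SplitN (a r) D Q}.ncard := rfl
      show Even (ex (H r) D + (splitNodes (a r) D).ncard)
      rw [Nat.even_iff, h6]
      omega
    · have h5 : Good (twist K (a r) D) k[X] ↔ Pool.Agent.Q269.SL.BoundedBy (cur K (a r) D) k[X] 1 := by
        rw [bounded_one]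
        exact ⟨fun g => ⟨g.2, g.1⟩, fun g => ⟨g.2, g.1⟩⟩
      show ex (H r) D = 0 ↔ _
      rw [h5, h4 1]
      constructor
      · intro h0
        rw [h0, pow_zero]
      · intro h0
        by_contra hne
        have h6 := Nat.one_lt_two_pow hne
        omega
  · intro S hS
    constructor
    · have h1 := cls_prop H Asm.d_CLS hc' hk hm (fun r => sgT (a r) (S r))
      have e1 : (∑ r, Fintype.card (Tau (a r))) = ∑ r, (nodes (a r)).ncard :=
        Finset.sum_congr rfl fun r _ => (badN_card (H r)).symm
      rw [e1] at h1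
      refine h1.congr fun m => ?_
      rw [cls_coe H hS, Set.ncard_coe_finset, ncard_tw]
    · intro 𝒜
      have h1 := cls_sets H Asm.d_KDR Asm.d_LWM Asm.d_CLS hc' hk hm (fun r => sgT (a r) (S r)) 𝒜
      simp only [pcl_eq H hS] at h1
      refine h1.congr fun m => ?_
      have e2 : {D ∈ SplitClass a S m | (fun r => ex (H r) D) ∈ 𝒜} =
          (((clF H (fun r => sgT (a r) (S r)) m).filter fun D => (fun r => ex (H r) D) ∈ 𝒜 : Finset k[X]) :
            Set k[X]) := by
        ext D
        rw [Finset.mem_coe, Finset.mem_filter]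
        show D ∈ SplitClass a S m ∧ _ ↔ _
        rw [mem_cls H hS]
      rw [e2, cls_coe H hS, Set.ncard_coe_finset, Set.ncard_coe_finset]
  · intro 𝒜
    have h1 := law_sets H Asm.d_KDR Asm.d_LWM Asm.d_CLS hc' hk hm 𝒜
    rw [law_eq] at h1
    refine h1.congr fun m => ?_
    rw [ncard_fil m (fun D => (fun r => ex (H r) D) ∈ 𝒜) _ _ (fun D _ => Iff.rfl), ncard_tw]

end Pool.Agent.Results.MP_9faec4_nt.ExactLawSeveralFamilies
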