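import Pool.Agent.Q45.HF.Final

/-!
# Rank equals order for the fibre powers of all nets of hyperelliptic curves over number fields

Let `k` be a number field, `u = (u_t : t ∈ τ)` variables and `f ∈ 𝓞_k[u][X]` a monic polynomial of
odd degree `2 g + 1 ≥ 3` in `X`. We consider the curves `Y² = F(X)`, `F = f + h_1 X + h_0`, where
`h_0`, `h_1` are two more variables (`fam f r`; for
`f = X ^ (2g+1) + u_1 X ^ (2g-1) + ... + u_(2g-2) X ^ 2` this is the universal curve of genus `g` with a
rational Weierstrass point). The ring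

`FR f r = 𝓞_k[u, h_0, h_1, x_1, ..., x_r][y_1, ..., y_r] / (y_i² = F(x_i))`

is the coordinate ring of the `r`-th fibre power of the family of the affine curves. Let `K` be its field
of fractions, a finitely generated field of transcendence degree `#τ + r + 2` over `ℚ`, and
let `C` be the smooth projective curve of genus `g` over `K` with the affine equation `Y² = F(X)`; it has
one point at infinity, so the class group of the Dedekind domain `K[X, Y] / (Y² - F)` is the group
`J(K) = Pic⁰(C)` of the rational points of the Jacobian. The curve has a smooth model over the open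
subscheme `𝒴` of `Spec (FR f r)` where `2 disc(F)` is invertible, of dimension `n = #τ + r + 3`.

We prove Q1 for `X = C`: the Euler product `Φ₁(s)` over all closed points of `𝒴` is
`E(s) ζ_k(s - n + 1) ^ (-r)` with a function `E` which is analytic without zeros for `Re s > n - 1/6`; so it
continues to a neighbourhood of every point of the line `Re s = n`, it has a zero of order `r` at `s = n`
and no other zero or pole on this line; and `J(K)` is a free abelian group of rank `r`.
-/

set_option autoImplicit false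

open Polynomial NumberField Filter Topology

namespace Pool.Agent.Results.MP_9faec4_nt.HyperellipticFibrePowers

open Q45.HF Pool.Agent.TH943.HJ
open Pool.Agent.TH958.An (Pt qy)

section
variable {O τ : Type} [CommRing O] (f : (MvPolynomial τ O)[X]) (r : ℕ)

/-- The closed points of `𝒴`: the closed points of `Spec (FR f r)` over which `2` is invertible and `F`
has no multiple root. -/
def Y : Type := {y : Pt (FR f r) // Good f (red f y)}

/-- The factor `P_{y,1}(q_y ^ (-s))⁻¹` of `Φ₁`. -/
noncomputable def factor (s : ℂ) (y : Y f r) : ℂ :=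
  (lpoly (fib f (red f y.1)) ((qy y.1 : ℂ) ^ (-s)))⁻¹

end

/-- `Φ` is the function `Φ₁` on the half plane `Re s > n`, where it is `E(s) ζ_k(s - n + 1) ^ (-r)`; it
is the Euler product for `Re s > n + 1/2`; and it continues to a neighbourhood of every point of the line
`Re s = n`, without poles and with no other zero than `s = n` on this line; `Λ` is the continuation
at the point `s = n`. -/
structure IsPhi (k : Type) [Field k] [NumberField k] {τ : Type} (f : (MvPolynomial τ (𝓞 k))[X])
    (r n : ℕ) (Φ E Λ : ℂ → ℂ) : Prop where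
  product : ∀ s : ℂ, (n : ℝ) + 1 / 2 < s.re → HasProd (factor f r s) (Φ s)
  half : ∀ s : ℂ, (n : ℝ) < s.re → AnalyticAt ℂ Φ s ∧ Φ s ≠ 0 ∧
    Φ s = E s / dedekindZeta k (s - n + 1) ^ r
  strip : ∀ s : ℂ, (n : ℝ) - 1 / 6 < s.re → AnalyticAt ℂ E s ∧ E s ≠ 0
  line : ∀ t : ℝ, t ≠ 0 → ∃ G : ℂ → ℂ, AnalyticAt ℂ G (n + t * Complex.I) ∧
    G (n + t * Complex.I) ≠ 0 ∧ ∀ᶠ s in 𝓝 (n + t * Complex.I), (n : ℝ) < s.re → G s = Φ s
  point : AnalyticAt ℂ Λ n ∧ ∀ᶠ s in 𝓝 (n : ℂ), (n : ℝ) < s.re → Λ s = Φ s

/-- The abelian group `A` is free of finite rank `m`. -/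
def FreeOfRank (A : Type) [AddCommGroup A] (m : ℕ) : Prop :=
  Module.Free ℤ A ∧ Module.Finite ℤ A ∧ Module.finrank ℤ A = m

/-- The ring `A` is a Dedekind domain and its class group is a free abelian group of finite rank `m`. -/
def ClassRank (A : Type) [CommRing A] (m : ℕ) : Prop :=
  ∃ _ : IsDedekindDomain A, FreeOfRank (Additive (ClassGroup A)) m

/-- The class group of `K[X, Y] / (Y² - F)`, which is the group `J(K)`, is a free abelian group of finite
rank `m`. -/
def JacobianRank {K : Type} [Field K] (F : K[X]) (m : ℕ) : Prop := ClassRank (CR F) m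

/-- **Tate's conjecture (rank = order of vanishing of `Φ₁` at `dim 𝒴`) for the Jacobians of the nets of
hyperelliptic curves over the function fields of their fibre powers.** -/
theorem result (k : Type) [Field k] [NumberField k] (τ : Type) [Fintype τ]
    (f : (MvPolynomial τ (𝓞 k))[X]) (hf : f.Monic) (hodd : Odd f.natDegree)
    (h3 : 3 ≤ f.natDegree) (r n : ℕ) (hn : n = Fintype.card τ + r + 3) :
    IsDomain (FR f r) ∧ ringKrullDim (FR f r) = n ∧ ∃ Φ E Λ : ℂ → ℂ, IsPhi k f r n Φ E Λ ∧
      ∀ (K : Type) [Field K] [Algebra (FR f r) K] [IsFractionRing (FR f r) K],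
        Good f (algebraMap (FR f r) K) ∧ ∃ m : ℕ, JacobianRank (fib f (algebraMap (FR f r) K)) m ∧
          analyticOrderAt Λ n = m ∧ m = r := by
  obtain ⟨h1, h2, Φ, E, Λ, p1, p2, p3, p4, p5, p6⟩ := main r hf h3 hodd n hn
  refine ⟨h1, h2, Φ, E, Λ, ⟨p1, p2, p3, p4, p5⟩, ?_⟩
  intro K _ _ _
  obtain ⟨a1, a2, a3, a4, a5, a6⟩ := p6 K
  refine ⟨a1, r, ⟨a2, a3, a4, a5⟩, ?_, rfl⟩
  rw [a6, a5]

end Pool.Agent.Results.MP_9faec4_nt.HyperellipticFibrePowers
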