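import Pool.Agent.Q282.MN.Main
import Pool.Agent.Q282.JB.Sq
import Pool.Agent.Q282.JK.RankK

/-!
# The law of the sums of the traces of Frobenius of curves of genus `g` with `r` marked points over a number field

Let `K` be a number field with the ring of integers `𝓞`, and let `X` be a curve over `K` with a regular model over an open part of
`Spec 𝓞`, so that `Φ₁(s)` is the `L`-function of its Picard variety and Q1 is about the point `s = 1`. The logarithmic derivative of
`Φ₁` at `1` is formally `- ∑ a_v log q_v / q_v + ...` with the traces of Frobenius `a_v = q_v + 1 - #X(k_v)`, and the rank of the Picard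
variety is predicted, and in practice searched for (Mestre, Nagao), by means of the sums
`S(X, Y) = - (log X)⁻¹ ∑_{q_v ≤ Y} a_v log q_v / q_v` over the primes `v` of good reduction.

Here the law of these sums is determined for the curves of genus `g ≥ 1` over `K` with `0 ≤ r ≤ g` marked points
`C_t : y ^ 2 = f_t(x) = (x - a_1) ⋯ (x - a_r) h(x) + l(x) ^ 2`,
with a monic polynomial `h` of degree `2 g + 1 - r` and a polynomial `l` of degree `< r` over `𝓞`; the marked points are the
`(a_i, l(a_i))`. Let `X → ∞` and let the coordinates of the parameters `t` (the `a_i`, the coefficients of `h` and those of `l`) in a `ℤ`-basis of `𝓞` be taken at random in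
any box with sides at least `X ^ k`, where `k → ∞` with `X` as slowly as one likes. Then the process
`s ↦ √2 (S_t(X, X ^ √s) - r √s)`, `0 < s ≤ 1`, converges to the Brownian motion in the sense of the finite-dimensional distributions.
For `s = 1`: the sum `S_t(X, X)` of a random curve of genus `g` has a limit law, which is the normal law with mean `r` and variance
`1 / 2`, for every `g` and every `K`. The convergence is uniform in the basis and in the box, the polynomial `f_t` is irreducible over
`K` and the group of the `K`-rational points of the Picard variety of `C_t` has rank at least `r`.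

Proof. The mean of `- a_v / q_v` over the family over the residue field is `r / q_v + O (q_v ^ (-3 / 2))` and the mean square is
`1 / q_v + O (q_v ^ (-3 / 2))` (Weil), and the values at different primes over the same rational prime are independent. With
`∑_{p ≤ X} ν(p) log p / p = log X + O(1)`, `ν(p)` the number of the primes of degree one over `p`, the means of the sums tend to those
of the Brownian motion, and so do the covariances. The characteristic functions are compared with those of independent variables by a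
Taylor polynomial of large degree, the chinese remainder theorem and exponential moments; the theorem of Lévy on characteristic
functions is in Mathlib. The rank is at least `r` outside a small set by a sieve.
-/

set_option autoImplicit false

namespace Pool.Agent.Results.MP_9faec4_nt.NagaoSums

open Finset NumberField Polynomial IsDedekindDomain
open Q282.JK
open scoped NNReal

/-- `a_v = q_v + 1 - #C(k_v)` for the curve `C` which consists of the affine curve `y ^ 2 = f(x)` over the residue field `k_v` of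
`v` and one point at infinity. -/
noncomputable def trace {K : Type} [Field K] [NumberField K] (f : (𝓞 K)[X]) (v : HeightOneSpectrum (𝓞 K)) : ℝ :=
  (Ideal.absNorm v.asIdeal : ℝ) + 1 - ((points f v 1 : ℝ) + 1)

/-- `S(X, Y) = - (log X)⁻¹ ∑ a_v log q_v / q_v`, the sum over all primes `v` of `K` with `Good f v` and `q_v ≤ Y`. -/
noncomputable def nagao {K : Type} [Field K] [NumberField K] (f : (𝓞 K)[X]) (X : ℕ) (Y : ℝ) : ℝ :=
  -(∑ᶠ v ∈ {v : HeightOneSpectrum (𝓞 K) | Good f v ∧ (Ideal.absNorm v.asIdeal : ℝ) ≤ Y},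
    trace f v * Real.log (Ideal.absNorm v.asIdeal) / Ideal.absNorm v.asIdeal) / Real.log X

/-- `√2 (S(X, X ^ √s) - r √s)` for the curve `y ^ 2 = f(x)`. -/
noncomputable def deviation {K : Type} [Field K] [NumberField K] (r : ℕ) (f : (𝓞 K)[X]) (X : ℕ) (s : ℝ) : ℝ :=
  Real.sqrt 2 * (nagao f X ((X : ℝ) ^ Real.sqrt s) - r * Real.sqrt s)

/-- The distribution function of the Brownian motion `B` at the times `s ∈ I`: the probability that `B_s ≤ x_s` for all `s ∈ I`. -/
noncomputable def brownian (I : Finset ℝ≥0) (x : I → ℝ) : ℝ :=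
  (ProbabilityTheory.BrownianReal.projectiveFamily I (Set.Iic x)).toReal

/-- The box of the integers `n k` with `N k ≤ n k < N k + L k` for all `k`. -/
noncomputable def box {κ : Type} [Fintype κ] [DecidableEq κ] (N : κ → ℤ) (L : κ → ℕ) : Finset (κ → ℤ) :=
  Fintype.piFinset fun k => Ico (N k) (N k + L k)

/-- The elements `t i = ∑ n (i, j) b j` with the coordinates `n (i, j)`. -/
def combine {O : Type} [CommRing O] {ι : Type} {d : ℕ} (b : Fin d → O) (n : ι × Fin d → ℤ) : ι → O :=
  fun i => ∑ j, (n (i, j) : O) * b j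

open Classical in
/-- The proportion of the `n` of the box with the property `P`. -/
noncomputable def proportion {κ : Type} [Fintype κ] [DecidableEq κ] (N : κ → ℤ) (L : κ → ℕ) (P : (κ → ℤ) → Prop) : ℝ :=
  (((box N L).filter P).card : ℝ) / ∏ k, (L k : ℝ)

/-- The polynomial `f` of odd degree over the ring of integers of `K` is irreducible over `K`, and the group of the `K`-rational
points of the Picard variety of the curve `y ^ 2 = f(x)`, which is the class group of its affine coordinate ring over `K`, has rank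
at least `r`. -/
def Rank (K : Type) [Field K] [NumberField K] (r : ℕ) (f : (𝓞 K)[X]) : Prop :=
  Irreducible (f.map (algebraMap (𝓞 K) K)) ∧ HasClassRank (CoordRing (f.map (algebraMap (𝓞 K) K))) r

/-! ### Proofs -/

lemma proportion_eq {κ : Type} [Fintype κ] [DecidableEq κ] (N : κ → ℤ) (L : κ → ℕ) (P : (κ → ℤ) → Prop) [DecidablePred P] :
    proportion N L P = (((box N L).filter P).card : ℝ) / ∏ k, (L k : ℝ) := by
  classical
  unfold proportion
  congr 2
  refine congrArg Finset.card ?_
  ext t
  simp only [mem_filter]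

lemma nagao_eq {K : Type} [Field K] [NumberField K] (f : (𝓞 K)[X]) (X : ℕ) (s : ℝ) (hX : 1 ≤ X) (hs : s ≤ 1) :
    Real.sqrt 2 * nagao f X ((X : ℝ) ^ Real.sqrt s) =
      ∑ v ∈ Q282.GK.SX K X, Q282.MN.cw X s (Ideal.absNorm v.asIdeal) * Q282.JB.valT f v := by
  classical
  have hX0 : (0 : ℝ) ≤ (X : ℝ) ^ Real.sqrt s := by positivity
  have h1 : {v : HeightOneSpectrum (𝓞 K) | Good f v ∧ (Ideal.absNorm v.asIdeal : ℝ) ≤ (X : ℝ) ^ Real.sqrt s} =
      (((Q282.GK.SX K X).filter fun v => Good f v ∧ Ideal.absNorm v.asIdeal ≤ Q282.MN.tx X s : Finset (HeightOneSpectrum (𝓞 K))) :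
        Set (HeightOneSpectrum (𝓞 K))) := by
    ext v
    rw [Set.mem_ofPred_eq, mem_coe, mem_filter, Q282.GK.mem_SX]
    unfold Q282.MN.tx
    rw [Nat.le_floor_iff hX0]
    constructor
    · rintro ⟨h1, h2⟩
      refine ⟨?_, h1, h2⟩
      have h3 := Q282.MN.tx_le hX hs
      unfold Q282.MN.tx at h3
      exact ((Nat.le_floor_iff hX0).2 h2).trans h3
    · rintro ⟨_, h1, h2⟩
      exact ⟨h1, h2⟩
  unfold nagao
  rw [h1, finsum_mem_coe_finset, sum_filter, ← sum_neg_distrib, sum_div, mul_sum]
  refine sum_congr rfl fun v _ => ?_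
  unfold Q282.MN.cw Q282.JB.valT trace
  by_cases h3 : Good f v
  · by_cases h4 : Ideal.absNorm v.asIdeal ≤ Q282.MN.tx X s
    · rw [if_pos ⟨h3, h4⟩, if_pos h4, if_pos h3]
      ring
    · rw [if_neg fun h => h4 h.2, if_neg h4]
      ring
  · rw [if_neg fun h => h3 h.1, if_neg h3]
    ring

open Classical in
/-- Let `K` be a number field, `g ≥ 1`, `0 ≤ r ≤ g`, let `I` be a finite set of times `s` with `0 < s ≤ 1`, let `x_s`, `s ∈ I`, be
real numbers, and `ε > 0`. There is an `X₁` with the following property. Let `X ≥ X₁` be an integer, let `b` be a basis of the ring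
of integers of `K` over `ℤ`, and let a box `N k ≤ n k < N k + L k` of coordinates be given all sides `L k` of which are at least
`X ^ X₁`. Then the proportion of the `n` of the box for which, with the parameters `t i = ∑ n (i, j) b j` and the polynomial
`f = fpol t = (x - a_1) ⋯ (x - a_r) h(x) + l(x) ^ 2` of degree `2 g + 1`, `f` is irreducible over `K`, the group of the
`K`-rational points of the Picard variety of the curve `y ^ 2 = f(x)` has rank at least `r`, and `√2 (S(X, X ^ √s) - r √s) ≤ x_s` for
all `s ∈ I`, differs by at most `ε` from the probability that the Brownian motion `B` satisfies `B_s ≤ x_s` for all `s ∈ I`; here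
`S(X, Y) = - (log X)⁻¹ ∑ a_v log q_v / q_v`, `a_v = q_v + 1 - #C(k_v)`, the sum over the primes `v` of `K` of norm `q_v ≤ Y` with
`Good f v`. -/
theorem result (K : Type) [Field K] [NumberField K] (g r : ℕ) (hg : 1 ≤ g) (hr : r ≤ g) (I : Finset ℝ≥0)
    (hI : ∀ s ∈ I, 0 < s ∧ s ≤ 1) (x : I → ℝ) (ε : ℝ) (hε : 0 < ε) :
    ∃ X₁ : ℕ, ∀ X : ℕ, X₁ ≤ X → ∀ (b : Module.Basis (Fin (Module.finrank ℚ K)) ℤ (𝓞 K))
      (N : Idx r (2 * g + 1 - r) × Fin (Module.finrank ℚ K) → ℤ) (L : Idx r (2 * g + 1 - r) × Fin (Module.finrank ℚ K) → ℕ),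
      (∀ k, X ^ X₁ ≤ L k) →
      |proportion N L (fun n => Rank K r (fpol (combine b n)) ∧ ∀ s : I, deviation r (fpol (combine b n)) X (s : ℝ≥0) ≤ x s) -
        brownian I x| ≤ ε := by
  have hrm : r + (2 * g + 1 - r) = 2 * g + 1 := by omega
  obtain ⟨B, hB, hloc⟩ := Q282.JB.loc2_T K g r (2 * g + 1 - r) hrm hr hg
  obtain ⟨X₁, h⟩ := Q282.MN.mn_law K (Idx r (2 * g + 1 - r)) 3 r B hB I hI x (ε / 2) (by positivity)
  obtain ⟨C, hC, hrank⟩ := rank_J K g r (2 * g + 1 - r) hrm hr hg 1 zero_lt_one
  obtain ⟨X₂, hX₂⟩ := Filter.eventually_atTop.1 (Q282.BP.loglog_tendsto.eventually_ge_atTop (2 * C / ε + 1))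
  refine ⟨max 16 (max X₁ X₂), fun X hX b N L hL => ?_⟩
  have hX16 : 16 ≤ X := (le_max_left _ _).trans hX
  have hX1 : X₁ ≤ X := (le_max_left _ _).trans ((le_max_right _ _).trans hX)
  have hll := hX₂ X ((le_max_right _ _).trans ((le_max_right _ _).trans hX))
  have hX0 : (16 : ℝ) ≤ X := by exact_mod_cast hX16
  have hL' : ∀ k, (X : ℝ) ^ (max 16 (max X₁ X₂)) ≤ L k := fun k => by exact_mod_cast hL k
  have hLX : ∀ k, (X : ℝ) ≤ L k := fun k => by
    refine le_trans ?_ (hL' k)
    calc (X : ℝ) = (X : ℝ) ^ 1 := (pow_one _).symm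
      _ ≤ _ := pow_le_pow_right₀ (by linarith) ((by norm_num : 1 ≤ 16).trans (le_max_left _ _))
  have hb : ∀ x : 𝓞 K, ∃ a : Fin (Module.finrank ℚ K) → ℤ, x = ∑ j, (a j : 𝓞 K) * b j := by
    intro x
    refine ⟨fun j => b.repr x j, ?_⟩
    have h1 := b.sum_repr x
    rw [← h1]
    refine sum_congr rfl fun j _ => ?_
    rw [h1, zsmul_eq_mul]
  have hP0 : 0 < ∏ k, (L k : ℝ) := prod_pos fun k _ => by linarith [hLX k]
  obtain ⟨A, hA⟩ : ∃ A : Finset (Idx r (2 * g + 1 - r) × Fin (Module.finrank ℚ K) → ℤ), A = (box N L).filter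
    (fun n => ∀ s : I, deviation r (fpol (combine b n)) X (s : ℝ≥0) ≤ x s) := ⟨_, rfl⟩
  obtain ⟨A', hA'⟩ : ∃ A' : Finset (Idx r (2 * g + 1 - r) × Fin (Module.finrank ℚ K) → ℤ), A' = (box N L).filter
    (fun n => Rank K r (fpol (combine b n)) ∧ ∀ s : I, deviation r (fpol (combine b n)) X (s : ℝ≥0) ≤ x s) := ⟨_, rfl⟩
  -- the law
  have h1 := h X hX1 (fun j => b j) hb N L (fun k => by
    refine le_trans ?_ (hL' k)
    exact pow_le_pow_right₀ (by linarith) ((le_max_left _ _).trans (le_max_right _ _)))
    (fun v t => Q282.JB.valT (fpol t) v) hloc A (fun n => by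
    rw [hA, mem_filter]
    refine and_congr Iff.rfl (forall_congr' fun s => ?_)
    have h2 := nagao_eq (fpol (combine (fun j => b j) n)) X (s : ℝ≥0) (by omega) (by exact_mod_cast (hI s s.2).2)
    unfold deviation
    have e : combine (fun j => b j) n = Q282.GK.comb (fun j => b j) n := rfl
    rw [e] at h2 ⊢
    rw [← h2]
    have e2 : Real.sqrt 2 * (nagao (fpol (Q282.GK.comb (fun j => b j) n)) X ((X : ℝ) ^ Real.sqrt (s : ℝ≥0)) -
        r * Real.sqrt (s : ℝ≥0)) = Real.sqrt 2 * nagao (fpol (Q282.GK.comb (fun j => b j) n)) X ((X : ℝ) ^ Real.sqrt (s : ℝ≥0)) -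
        Real.sqrt 2 * r * Real.sqrt (s : ℝ≥0) := by ring
    rw [e2])
  have h1' : |(A.card : ℝ) / ∏ k, (L k : ℝ) - brownian I x| ≤ ε / 2 := h1
  -- the exceptions
  have h4 := hrank (fun j => b j) hb N L X X hX16 le_rfl hLX ((box N L).filter fun n => ¬ Rank K r (fpol (combine b n)))
    (filter_subset _ _) (fun n hn hOk => (mem_filter.1 hn).2 hOk)
  have h5 : (((box N L).filter fun n => ¬ Rank K r (fpol (combine b n))).card : ℝ) / ∏ k, (L k : ℝ) ≤ ε / 2 := by
    rw [div_le_iff₀ hP0]
    refine h4.trans ?_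
    have hpos : 0 < Real.log (Real.log X) := by
      have : 0 ≤ 2 * C / ε := by positivity
      linarith
    rw [Real.rpow_neg_one, mul_comm C, mul_assoc, mul_comm (∏ k, (L k : ℝ))]
    refine mul_le_mul_of_nonneg_right ?_ hP0.le
    rw [← div_eq_mul_inv, div_le_iff₀ hpos]
    have h6 : 2 * C / ε ≤ Real.log (Real.log X) := by linarith
    rw [div_le_iff₀ hε] at h6
    linarith
  have h6 : (A'.card : ℝ) ≤ A.card := by
    have : A' ⊆ A := by
      rw [hA, hA']
      intro t ht
      rw [mem_filter] at ht ⊢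
      exact ⟨ht.1, ht.2.2⟩
    exact_mod_cast card_le_card this
  have h7 : (A.card : ℝ) ≤ A'.card + ((box N L).filter fun n => ¬ Rank K r (fpol (combine b n))).card := by
    have : A ⊆ A' ∪ (box N L).filter fun n => ¬ Rank K r (fpol (combine b n)) := by
      rw [hA, hA']
      intro t ht
      rw [mem_filter] at ht
      rw [mem_union, mem_filter, mem_filter]
      by_cases hR : Rank K r (fpol (combine b t))
      · exact Or.inl ⟨ht.1, hR, ht.2⟩
      · exact Or.inr ⟨ht.1, hR⟩
    exact_mod_cast (card_le_card this).trans (card_union_le _ _)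
  have e2 : proportion N L (fun n => Rank K r (fpol (combine b n)) ∧ ∀ s : I, deviation r (fpol (combine b n)) X (s : ℝ≥0) ≤ x s) =
      (A'.card : ℝ) / ∏ k, (L k : ℝ) := by
    rw [hA', proportion_eq]
  rw [e2]
  have h8 : (A'.card : ℝ) / ∏ k, (L k : ℝ) ≤ (A.card : ℝ) / ∏ k, (L k : ℝ) := div_le_div_of_nonneg_right h6 hP0.le
  have h9 : (A.card : ℝ) / ∏ k, (L k : ℝ) ≤ (A'.card : ℝ) / ∏ k, (L k : ℝ) + ε / 2 := by
    have := div_le_div_of_nonneg_right h7 hP0.le
    rw [add_div] at this
    linarith
  have h10 := abs_le.1 h1'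
  rw [abs_le]
  constructor <;> linarith

end Pool.Agent.Results.MP_9faec4_nt.NagaoSums
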