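import Pool.Agent.Q69.OD.Opt

/-!
# The Birch-Swinnerton-Dyer product is the optimal detector of the rank

Let `K` be a number field with the ring of integers `𝓞`, `g ≥ 1` and `0 ≤ r ≤ g`. The family `F_r` consists of the curves of
genus `g`
`C_t : y ^ 2 = f_t(x) = (x - a_1) ⋯ (x - a_r) h(x) + l(x) ^ 2`,
with a monic polynomial `h` of degree `2 g + 1 - r` and a polynomial `l` of degree `< r` over `𝓞`; these are all the curves
`y ^ 2 = f(x)`, `f` monic of degree `2 g + 1`, with `r` marked points `(a_i, l(a_i))` in general position. For almost all members the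
Jacobian `J_t` has rank at least `r` over `K`. Let `P_t(X) = ∏_{N v ≤ X} #J_t(k_v) / (N v) ^ g` be the product of Birch and
Swinnerton-Dyer.

Let `r < r' ≤ g` and `k = r' - r`. How well can one tell the members of `F_{r'}` from the members of `F_r` if all the reductions
`f_t mod v` at the primes `v` of norm `N v ≤ X` are known, by whatever rule? A rule is a set `A` of polynomials such that `f ∈ A`
depends only on the reductions of `f` modulo the primes of norm at most `X`. There are two errors: the proportion of the members of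
`F_r` in `A`, and the proportion of the members of `F_{r'}` outside `A`. It is proved that the product of Birch and Swinnerton-Dyer is
the optimal statistic, and the best possible exponents are determined:

* the rule `P_t(X) ≥ (log X) ^ (r + 1 / 2 + y)`, `0 < y ≤ k`, has the errors at most `(log X) ^ (-y ^ 2 / 2 + ε)` and
  `(log X) ^ (-(k - y) ^ 2 / 2 + ε)`;
* for every rule whatsoever with the first error at most `(log X) ^ (-y ^ 2 / 2)` the second error is at least
  `(log X) ^ (-(k - y) ^ 2 / 2 - ε)`, even if it counts only the members of `F_{r'}` with an irreducible `f_t` and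
  `rank J_t(K) ≥ r'`;
* so the sum of the two errors is at least `(log X) ^ (-k ^ 2 / 8 - ε)` for every rule, and it is `(log X) ^ (-k ^ 2 / 8 + o(1))` for
  the rule `P_t(X) ≥ (log X) ^ ((r + r' + 1) / 2)`.

In particular, to tell the family with one more marked point from `F_r` with a probability of an error at most `δ` from the numbers of
points modulo the primes up to `X` (and from anything else that can be seen modulo these primes) one needs
`X ≥ exp (δ ^ (-8 + o(1)))`. All this holds for all genera and all number fields, with the same exponents.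

Proof. The local statement is: the number of the members of `F_r` over a finite field with `q` elements with a given polynomial `f` is
`N ^ r + O (q ^ (r - 1))`, `N` the number of the affine points, for every monic `f` of degree `2 g + 1` (prime to the characteristic),
because the number of the `l` for which `f - l ^ 2` has a multiple root is small: `f' ^ 2 - 4 f l' ^ 2` is not zero. So the likelihood
ratio of the two families at `v` is `P_v ^ k (1 + O(1 / q))`, its mean is exactly one, and this determines the mean of the logarithm of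
the correction up to `O (q ^ (-3 / 2))`; the sum of the corrections over the primes is concentrated by an exponential inequality. Hence
the likelihood ratio of the families is `P_t(X) ^ k (log X) ^ (-k (r + r' + 1) / 2 + o(1))` outside a proportion smaller than any power
of `1 / log X`. Then the lemma of Neyman and Pearson is applied together with the large deviations of `P_t(X)` in the family
`F_{r'}`.
-/

set_option autoImplicit false

namespace Pool.Agent.Results.MP_9faec4_nt.OptimalRankDetection

open Finset NumberField Polynomial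
open Q282.JK

/-- The box of the integers `n k` with `N k ≤ n k < N k + L k` for all `k`. -/
noncomputable def box {κ : Type} [Fintype κ] [DecidableEq κ] (N : κ → ℤ) (L : κ → ℕ) : Finset (κ → ℤ) :=
  Fintype.piFinset fun k => Ico (N k) (N k + L k)

/-- The elements `t i = ∑ n (i, j) b j` with the coordinates `n (i, j)`. -/
def combine {O : Type} [CommRing O] {ι : Type} {d : ℕ} (b : Fin d → O) (n : ι × Fin d → ℤ) : ι → O :=
  fun i => ∑ j, (n (i, j) : O) * b j

open Classical in
/-- The proportion of the `n` of the box with the property `P`. -/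
noncomputable def proportion {κ : Type} [Fintype κ] [DecidableEq κ] (N : κ → ℤ) (L : κ → ℕ) (P : (κ → ℤ) → Prop) : ℝ :=
  (((box N L).filter P).card : ℝ) / ∏ k, (L k : ℝ)

/-- The polynomial `f` of odd degree over the ring of integers of `K` is irreducible over `K`, and the group of the `K`-rational
points of the Jacobian of the curve `y ^ 2 = f(x)`, which is the class group of its affine coordinate ring over `K`, has rank at
least `r`. -/
def Rank (K : Type) [Field K] [NumberField K] (r : ℕ) (f : (𝓞 K)[X]) : Prop :=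
  Irreducible (f.map (algebraMap (𝓞 K) K)) ∧ HasClassRank (CoordRing (f.map (algebraMap (𝓞 K) K))) r

/-- A rule: whether `f` belongs to the set `A` depends only on the reductions of `f` modulo the primes of norm at most `x`. -/
def IsRule (K : Type) [Field K] [NumberField K] (x : ℕ) (A : Set (𝓞 K)[X]) : Prop :=
  ∀ f f' : (𝓞 K)[X], (∀ v : IsDedekindDomain.HeightOneSpectrum (𝓞 K), Ideal.absNorm v.asIdeal ≤ x → f.map (red v) = f'.map (red v)) →
    (f ∈ A ↔ f' ∈ A)

/-- Let `K` be a number field, `g ≥ 1`, `r < r' ≤ g`, `0 < y ≤ r' - r` and `ε > 0`. There is an `X₁` with the following property. Let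
`x ≥ X₁`, let `b` be a basis of the ring of integers of `K` over `ℤ`, and let a box of coordinates of the parameters of the family
with `r` marked points and one of the family with `r'` marked points be given, all sides of both at least `T`. For `n` in one of
the boxes let `f_n = fpol t = (x - a_1) ⋯ (x - a_r) h(x) + l(x) ^ 2` (or the same with `r'`), of degree `2 g + 1`, be the polynomial
with the parameters `t i = ∑ n (i, j) b j`, and let `P_n = product f_n x` be the product of the `P_v(1 / N v) = #J(k_v) / (N v) ^ g`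
over the primes `v` of `K` of norm at most `x` with `Good f_n v`, `J` the Jacobian of `y ^ 2 = f_n(x)`.

* If `T ≥ x ^ ((log log x) ^ 3)`, then the proportion of the `n` of the first box with `P_n ≥ (log x) ^ (r + 1 / 2 + y)` is at most
  `(log x) ^ (-y ^ 2 / 2 + ε)`, and the proportion of the `n` of the second box with `P_n < (log x) ^ (r + 1 / 2 + y)` is at most
  `(log x) ^ (-(r' - r - y) ^ 2 / 2 + ε)`.
* If `T ≥ exp (2 x)` and `A` is any set of polynomials such that `f ∈ A` depends only on the reductions of `f` modulo the primes of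
  norm at most `x`, then: if the proportion of the `n` of the first box with `f_n ∈ A` is at most `(log x) ^ (-y ^ 2 / 2)`, the
  proportion of the `n` of the second box for which `f_n` is irreducible over `K`, the rank of `J(K)` is at least `r'`, and
  `f_n ∉ A`, is at least `(log x) ^ (-(r' - r - y) ^ 2 / 2 - ε)`.
* If `T ≥ exp (2 x)`, the sum of these two proportions is at least `(log x) ^ (-(r' - r) ^ 2 / 8 - ε)` for all such `A`. -/
theorem result (K : Type) [Field K] [NumberField K] (g r r' : ℕ) (hg : 1 ≤ g) (hrr : r < r') (hr' : r' ≤ g) (y ε : ℝ) (hy : 0 < y)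
    (hyk : y ≤ (r' : ℝ) - r) (hε : 0 < ε) :
    ∃ X₁ : ℕ, ∀ x : ℕ, X₁ ≤ x → ∀ T : ℝ, ∀ (b : Module.Basis (Fin (Module.finrank ℚ K)) ℤ (𝓞 K))
    (N : Idx r (2 * g + 1 - r) × Fin (Module.finrank ℚ K) → ℤ) (L : Idx r (2 * g + 1 - r) × Fin (Module.finrank ℚ K) → ℕ),
    (∀ k, T ≤ L k) →
    ∀ (N' : Idx r' (2 * g + 1 - r') × Fin (Module.finrank ℚ K) → ℤ) (L' : Idx r' (2 * g + 1 - r') × Fin (Module.finrank ℚ K) → ℕ),
    (∀ k, T ≤ L' k) →
      ((x : ℝ) ^ ((Real.log (Real.log x)) ^ 3) ≤ T →
        proportion N L (fun n => (Real.log x) ^ (r + 1 / 2 + y) ≤ product (fpol (combine b n)) x) ≤ (Real.log x) ^ (-(y ^ 2 / 2) + ε) ∧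
        proportion N' L' (fun n => product (fpol (combine b n)) x < (Real.log x) ^ (r + 1 / 2 + y)) ≤
          (Real.log x) ^ (-(((r' : ℝ) - r - y) ^ 2 / 2) + ε)) ∧
      (Real.exp (2 * x) ≤ T → ∀ A : Set (𝓞 K)[X], IsRule K x A →
        (proportion N L (fun n => fpol (combine b n) ∈ A) ≤ (Real.log x) ^ (-(y ^ 2 / 2)) →
          (Real.log x) ^ (-(((r' : ℝ) - r - y) ^ 2 / 2) - ε) ≤
            proportion N' L' (fun n => Rank K r' (fpol (combine b n)) ∧ fpol (combine b n) ∉ A)) ∧
        (Real.log x) ^ (-(((r' : ℝ) - r) ^ 2 / 8) - ε) ≤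
          proportion N L (fun n => fpol (combine b n) ∈ A) +
            proportion N' L' (fun n => Rank K r' (fpol (combine b n)) ∧ fpol (combine b n) ∉ A)) := by
  classical
  have hrm : r + (2 * g + 1 - r) = 2 * g + 1 := by omega
  have hrm' : r' + (2 * g + 1 - r') = 2 * g + 1 := by omega
  obtain ⟨k, hk⟩ : ∃ k : ℝ, k = (r' : ℝ) - r := ⟨_, rfl⟩
  have hk0 : 0 < k := by
    have : (r : ℝ) < r' := by exact_mod_cast hrr
    rw [hk]
    linarith
  obtain ⟨Xa, hXa, ha⟩ := Q69.LJ.ldp_Ju K g r hg (hrr.le.trans hr') k 1 ε hk0.le one_pos hε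
  obtain ⟨Xb, hXb, hb1⟩ := Q69.LJ.ldp_Ju K g r' hg hr' k 1 ε hk0.le one_pos hε
  obtain ⟨Xc, hXc, hc⟩ := Q69.OD.opt_K K g r r' hg hrr.le hr' y ε hy hyk hε
  obtain ⟨Xd, hXd, hd⟩ := Q69.OD.opt_K K g r r' hg hrr.le hr' (((r' : ℝ) - r) / 2) ε (by rw [← hk]; linarith) (by rw [← hk]; linarith) hε
  rw [← hk] at hyk
  refine ⟨max Xa (max Xb (max Xc Xd)), ?_⟩
  intro x hx T b N L hL N' L' hL'
  rw [max_le_iff, max_le_iff, max_le_iff] at hx
  obtain ⟨hxa, hxb, hxc, hxd⟩ := hx
  have hX16 : 16 ≤ x := hXa.trans hxa
  have hX0 : (16 : ℝ) ≤ x := by exact_mod_cast hX16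
  have hlogX : 1 < Real.log x := by
    rw [Real.lt_log_iff_exp_lt (by linarith)]
    linarith [Real.exp_one_lt_three]
  have hlog0 : 0 < Real.log x := by linarith
  have hb : ∀ z : 𝓞 K, ∃ a : Fin (Module.finrank ℚ K) → ℤ, z = ∑ j, (a j : 𝓞 K) * b j := by
    intro z
    refine ⟨fun j => b.repr z j, ?_⟩
    have h1 := b.sum_repr z
    rw [← h1]
    refine sum_congr rfl fun j _ => ?_
    rw [h1, zsmul_eq_mul]
  have hpow : ∀ a : ℝ, (Real.log x) ^ a = Real.exp (a * Real.log (Real.log x)) := by
    intro a
    rw [Real.rpow_def_of_pos hlog0, mul_comm]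
  have hpos : ∀ n : Idx r (2 * g + 1 - r) × Fin (Module.finrank ℚ K) → ℤ, 0 < product (fpol (combine (fun j => b j) n)) x :=
    fun n => (log_product (fpol (combine (fun j => b j) n)) (fpol_monic (by omega) _) g
      (by rw [fpol_natDegree (by omega : r ≤ 2 * g + 1 - r), hrm]) x).1
  have hpos' : ∀ n : Idx r' (2 * g + 1 - r') × Fin (Module.finrank ℚ K) → ℤ, 0 < product (fpol (combine (fun j => b j) n)) x :=
    fun n => (log_product (fpol (combine (fun j => b j) n)) (fpol_monic (by omega) _) g
      (by rw [fpol_natDegree (by omega : r' ≤ 2 * g + 1 - r'), hrm']) x).1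
  have hle : ∀ (a : ℝ) (z : ℝ), 0 < z → ((Real.log x) ^ a ≤ z ↔ a * Real.log (Real.log x) ≤ Real.log z) := by
    intro a z hz
    rw [hpow, Real.le_log_iff_exp_le hz]
  have hge : ∀ (a : ℝ) (z : ℝ), 0 < z → (z ≤ (Real.log x) ^ a ↔ Real.log z ≤ a * Real.log (Real.log x)) := by
    intro a z hz
    rw [hpow, Real.log_le_iff_le_exp hz]
  have hprop : ∀ {κ : Type} [Fintype κ] [DecidableEq κ] (N : κ → ℤ) (L : κ → ℕ) (P Q : (κ → ℤ) → Prop) [DecidablePred Q] (c : ℝ),
      (0 < ∏ k, (L k : ℝ)) → (∀ n, P n → Q n) → (((Q282.GK.kbox N L).filter Q).card : ℝ) ≤ c * ∏ k, (L k : ℝ) → proportion N L P ≤ c := by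
    intro κ _ _ N L P Q _ c hP hPQ h
    unfold proportion
    rw [div_le_iff₀ hP]
    refine le_trans (Nat.cast_le.2 (card_le_card fun n hn => ?_)) h
    rw [mem_filter] at hn ⊢
    exact ⟨hn.1, hPQ n hn.2⟩
  have hprop' : ∀ {κ : Type} [Fintype κ] [DecidableEq κ] (N : κ → ℤ) (L : κ → ℕ) (P Q : (κ → ℤ) → Prop) [DecidablePred Q] (c : ℝ),
      (0 < ∏ k, (L k : ℝ)) → (∀ n, Q n → P n) → c * ∏ k, (L k : ℝ) ≤ (((Q282.GK.kbox N L).filter Q).card : ℝ) → c ≤ proportion N L P := by
    intro κ _ _ N L P Q _ c hP hPQ h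
    unfold proportion
    rw [le_div_iff₀ hP]
    refine le_trans h (Nat.cast_le.2 (card_le_card fun n hn => ?_))
    rw [mem_filter] at hn ⊢
    exact ⟨hn.1, hPQ n hn.2⟩
  constructor
  · intro hT
    have hT0 : 0 < T := lt_of_lt_of_le (Real.rpow_pos_of_pos (by linarith) _) hT
    have hP0 : 0 < ∏ k, (L k : ℝ) := prod_pos fun k _ => hT0.trans_le (hL k)
    have hP0' : 0 < ∏ k, (L' k : ℝ) := prod_pos fun k _ => hT0.trans_le (hL' k)
    have h1 := ((ha x hxa T hT (fun j => b j) hb N L hL).1 y hy.le hyk 1 (Or.inl rfl)).2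
    have h2 := ((hb1 x hxb T hT (fun j => b j) hb N' L' hL').1 (k - y) (by linarith) (by linarith) (-1) (Or.inr rfl)).2
    constructor
    · have e1 : -(y ^ 2 / 2) + ε = -(y ^ 2 / 2 - ε) := by ring
      rw [hpow (-(y ^ 2 / 2) + ε), e1, neg_mul]
      refine hprop N L _ _ _ hP0 (fun n hn => ?_) h1
      rw [one_mul, one_mul]
      exact (hle _ _ (hpos n)).1 hn
    · have e1 : -(((r' : ℝ) - r - y) ^ 2 / 2) + ε = -((k - y) ^ 2 / 2 - ε) := by rw [hk]; ring
      rw [hpow (-(((r' : ℝ) - r - y) ^ 2 / 2) + ε), e1, neg_mul]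
      refine hprop N' L' _ _ _ hP0' (fun n hn => ?_) h2
      have h3 := (hge _ _ (hpos' n)).1 (le_of_lt hn)
      have h4 : Real.log (product (fpol (Q282.GK.comb (fun j => b j) n)) x) ≤ ((r : ℝ) + 1 / 2 + y) * Real.log (Real.log x) := h3
      have h5 : (-1 * ((r' : ℝ) + 1 / 2) + (k - y)) = -((r : ℝ) + 1 / 2 + y) := by rw [hk]; ring
      rw [h5]
      linarith
  · intro hT A hA
    have hT0 : 0 < T := (Real.exp_pos _).trans_le hT
    have hP0 : 0 < ∏ k, (L k : ℝ) := prod_pos fun k _ => hT0.trans_le (hL k)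
    have hP0' : 0 < ∏ k, (L' k : ℝ) := prod_pos fun k _ => hT0.trans_le (hL' k)
    have hA' : ∀ f f' : (𝓞 K)[X], (∀ v ∈ Q282.GK.SX K x, f.map (red v) = f'.map (red v)) → f ∈ A → f' ∈ A := by
      intro f f' h hf
      exact (hA f f' fun v hv => h v (Q282.GK.mem_SX.2 hv)).1 hf
    -- the general step
    have key : ∀ z : ℝ, (∀ α : ℝ, α = Real.exp (-(z ^ 2 / 2 * Real.log (Real.log x))) →
        (((Q282.GK.kbox N L).filter fun n => fpol (Q282.GK.comb (fun j => b j) n) ∈ A).card : ℝ) ≤ α * ∏ k, (L k : ℝ) →
        Real.exp (-((((r' : ℝ) - r - z) ^ 2 / 2 + ε) * Real.log (Real.log x))) * ∏ k, (L' k : ℝ) ≤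
          (((Q282.GK.kbox N' L').filter fun n => Ok K (Q282.GK.comb (fun j => b j) n) ∧ fpol (Q282.GK.comb (fun j => b j) n) ∉ A).card : ℝ)) →
        proportion N L (fun n => fpol (combine b n) ∈ A) ≤ (Real.log x) ^ (-(z ^ 2 / 2)) →
          (Real.log x) ^ (-(((r' : ℝ) - r - z) ^ 2 / 2) - ε) ≤
            proportion N' L' (fun n => Rank K r' (fpol (combine b n)) ∧ fpol (combine b n) ∉ A) := by
      intro z h h1
      unfold proportion at h1
      rw [div_le_iff₀ hP0, hpow, neg_mul] at h1
      have h2 := h _ rfl h1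
      have e1 : -(((r' : ℝ) - r - z) ^ 2 / 2) - ε = -(((r' : ℝ) - r - z) ^ 2 / 2 + ε) := by ring
      rw [hpow, e1, neg_mul]
      exact hprop' N' L' _ (fun n => Ok K (Q282.GK.comb (fun j => b j) n) ∧ fpol (Q282.GK.comb (fun j => b j) n) ∉ A) _ hP0'
        (fun n hn => hn) h2
    refine ⟨key y fun α hα h => ?_, ?_⟩
    · refine hc x hxc T hT (fun j => b j) (fun j => b j) hb hb N L hL N' L' hL' A hA' ?_
      rw [← hα]
      exact h
    · by_cases h1 : proportion N L (fun n => fpol (combine b n) ∈ A) ≤ (Real.log x) ^ (-((((r' : ℝ) - r) / 2) ^ 2 / 2))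
      · have h2 := key (((r' : ℝ) - r) / 2) (fun α hα h => by
          refine hd x hxd T hT (fun j => b j) (fun j => b j) hb hb N L hL N' L' hL' A hA' ?_
          rw [← hα]
          exact h) h1
        have e1 : -(((r' : ℝ) - r - ((r' : ℝ) - r) / 2) ^ 2 / 2) - ε = -(((r' : ℝ) - r) ^ 2 / 8) - ε := by ring
        rw [e1] at h2
        have h3 : 0 ≤ proportion N L (fun n => fpol (combine b n) ∈ A) := by
          unfold proportion
          positivity
        linarith
      · rw [not_le] at h1
        have h3 : 0 ≤ proportion N' L' (fun n => Rank K r' (fpol (combine b n)) ∧ fpol (combine b n) ∉ A) := by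
          unfold proportion
          positivity
        have h4 : (Real.log x) ^ (-(((r' : ℝ) - r) ^ 2 / 8) - ε) ≤ (Real.log x) ^ (-((((r' : ℝ) - r) / 2) ^ 2 / 2)) := by
          refine Real.rpow_le_rpow_of_exponent_le hlogX.le ?_
          have e1 : -((((r' : ℝ) - r) / 2) ^ 2 / 2) = -(((r' : ℝ) - r) ^ 2 / 8) := by ring
          rw [e1]
          linarith
        linarith

end Pool.Agent.Results.MP_9faec4_nt.OptimalRankDetection
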